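import Mathlib
import Pool.Agent.helper58.FI.DefsC

/-!
# Project fi2 (MP_baa4d7_al): the local data without the condition that the inertial quotient is abelian

`Lo0`, `Loc` are those of `helper58/FI/DefsC` without the field `cyc`. Everything else of `Pool.Agent.FI` is used unchanged
(`open Pool.Agent.FI`; inside the namespace `Pool.Agent.FI2` the names `Lo0`, `Loc`, and the `_stmt` of the FI2 specs mean the
new ones).
-/

set_option autoImplicit false

namespace Pool.Agent.FI2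

open Pool.Agent.helper58.DC Pool.Agent.DI Pool.Agent.GR Pool.Agent.OB Pool.Agent.DR Pool.Agent.FI

variable {G : Type} [Group G]

/-- What the chain argument uses from the other blocks, without the property `Good`. No condition on the group
`TT M D θ / cz D` except that it acts freely. -/
structure Lo0 (p : ℕ) (M : Ideal (integralClosure ℤ ℂ)) (D : Subgroup G) (x : G) (θ χ : G → ℂ) :
    Prop where
  rt : Rt p M D x θ χ
  free : Free M D θ
  nb : D ≠ ⊥
  bet : ¬ p ∣ (cz D).relIndex (TT M D θ)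
  con : ∀ Q : Subgroup G, IsPGroup p Q → ∀ ψ ∈ IrrOn (cz Q), Induces M ψ χ →
    ∃ g : G, cjS g Q ≤ D ∧ SB M (cz (cjS g Q)) θ (cjF g ψ)
  cnj : ∀ P ≤ D, ∀ ψ ∈ IrrOn (cz P), SB M (cz P) θ ψ → ∀ D₁ : Subgroup G, IsPGroup p D₁ →
    P ≤ D₁ → Nat.card D₁ = Nat.card D → ∀ θ₁ ∈ IrrOn (cz D₁), SB M (cz P) θ₁ ψ →
    ∃ l ∈ cz P, cjS l D₁ = D ∧ SB M (cz D) (cjF l θ₁) θ
  dfl : ∀ P ≤ D, ∀ ψ ∈ IrrOn (cz P), SB M (cz P) θ ψ → ∃ x' ∈ cz D, DefL p M (cz P) ψ D x'
  eqr : ∀ P ≤ D, ∀ y ∈ cz P, PEl p y → ∀ z ∈ Cz (cz P) y,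
    InM M (eS (cz P) (Bl M (cz P) θ) z - eS (Cz (cz P) y) (BlC M (cz P) θ y) z)

/-- What the chain argument uses from the other blocks. -/
structure Loc (p : ℕ) (M : Ideal (integralClosure ℤ ℂ)) (D : Subgroup G) (x : G) (θ χ : G → ℂ) :
    Prop where
  lo : Lo0 p M D x θ χ
  good : ∀ P ≤ D, P ≠ ⊥ → Good p M D (cz P) θ

end Pool.Agent.FI2
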