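import Mathlib
import Pool.Agent.helper58.FI.SpecC
import Pool.Agent.helper59.FI2.DefsC2

/-!
# Project fi2 (MP_baa4d7_al): the rows of block F which do not use that the inertial quotient is abelian

Copies of the statements of `helper58/FI/SpecC` for `Pool.Agent.FI2.Lo0`, `Pool.Agent.FI2.Loc`.
-/

set_option autoImplicit false

namespace Pool.Agent.FI2

open Pool.Agent.helper58.DC Pool.Agent.DI Pool.Agent.GR Pool.Agent.OB Pool.Agent.DR Pool.Agent.FI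

/-- **FRA** (medium; from FEQ, FSI, IF of DC). Frattini. Let `K = cz P` (`D, cz D ≤ K` because `P ≤ D` and `D` is abelian).
(1) `cz D ≤ TT M D θ` (`cjF c θ = θ` for `c ∈ cz D`). If `t ∈ TT M D θ` commutes with some `u ∈ P`, `u ≠ 1`, then `t ∈ cz D` (`Free`).
(2) `D₁ = cjS n D ≥ cjS n P = P`, `θ₁ = cjF n θ`; from `SB M K ψ θ` we get `SB M K (cjF n ψ) (cjF n θ)` (FEQ, `cjS n K = K`), and
`SB M K (cjF n ψ) θ`, so `SB M K θ₁ θ`, `SB M K θ₁ ψ`. `cnj` gives `k ∈ K` with `cjS (k n) D = D` and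
`SB M (cz D) (cjF (k n) θ) θ`: `k * n ∈ TT M D θ`. (3) `SB M (cz D) (cjF t θ) θ` implies `SB M K (cjF t θ) θ` (FSI (1)), and
`SB M K (cjF t ψ) (cjF t θ)`. -/
def FRA_stmt : Prop :=
  ∀ (p : ℕ) (M : Ideal (integralClosure ℤ ℂ)), Setup p M → ∀ (G : Type) [Group G] [Finite G]
    (D : Subgroup G) (x : G) (θ χ : G → ℂ), Lo0 p M D x θ χ → ∀ P ≤ D,
    (cz D ≤ TT M D θ ∧ cz D ≤ cz P ∧ D ≤ cz P ∧ (P ≠ ⊥ → TT M D θ ⊓ cz P = cz D)) ∧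
    (∀ n ∈ nz P, ∀ ψ ∈ Bl M (cz P) θ, cjF n ψ ∈ Bl M (cz P) θ → ∃ k ∈ cz P, k * n ∈ TT M D θ) ∧
    (∀ t ∈ TT M D θ, t ∈ nz P → ∀ ψ ∈ Bl M (cz P) θ, cjF t ψ ∈ Bl M (cz P) θ)

/-- **FNG** (medium; from FRA, FEQ, FSI). Counting. Proof: `lo.con` gives `g₀` in the set. Let `P₀ = cjS g₀ P ≤ D`, `K = cz P`,
`T = TT M D θ`. CLAIM: the set is `{t * g₀ * k | t ∈ T, k ∈ K}`. `⊇`: `cjS (t g₀ k) P = cjS t P₀ ≤ cjS t D = D`;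
`cjF (t g₀ k) η = cjF t (cjF g₀ η)` and `SB M (cz (cjS t P₀)) (cjF t θ) (cjF (t g₀) η)` (FEQ),
`SB M (cz (cjS t P₀)) (cjF t θ) θ` by FSI (1) from `SB M (cz D) (cjF t θ) θ`. `⊆`: let `g` be in the set, `D₁ = cjS (g₀ g⁻¹) D`,
`θ₁ = cjF (g₀ g⁻¹) θ`: `P₀ = cjS (g₀ g⁻¹) (cjS g P) ≤ D₁`, and `SB M (cz P₀) θ₁ (cjF g₀ η)` (FEQ), `SB M (cz P₀) θ (cjF g₀ η)`; by
`lo.cnj` there is `l ∈ cz P₀` with `t = l * g₀ * g⁻¹ ∈ T`; so `g = t⁻¹ * g₀ * (g₀⁻¹ * l * g₀)` and `g₀⁻¹ l g₀ ∈ K`. Count: `t g₀ k = t' g₀ k'`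
iff `t'⁻¹ t = g₀ k' k⁻¹ g₀⁻¹ ∈ T ⊓ cz P₀ = cz D` (FRA (1)); so all fibres of `T × K → G`, `(t, k) ↦ t g₀ k`, over the set have
`|cz D|` elements. -/
def FNG_stmt : Prop :=
  ∀ (p : ℕ) (M : Ideal (integralClosure ℤ ℂ)), Setup p M → ∀ (G : Type) [Group G] [Finite G]
    (D : Subgroup G) (x : G) (θ χ : G → ℂ), Lo0 p M D x θ χ → ∀ P : Subgroup G, IsPGroup p P →
    P ≠ ⊥ → ∀ η ∈ Blk M χ (cz P),
    {g : G | cjS g P ≤ D ∧ SB M (cz (cjS g P)) θ (cjF g η)}.ncard * Nat.card (cz D) =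
      Nat.card (TT M D θ) * Nat.card (cz P)

open Classical in
/-- **HTZ** (medium; from HTN, CCI of GR, C3 of DI, IF of DC). Heights are zero. Proof: let `L = cz P`, `n = ψ 1`, `z v = ψ v⁻¹` for `v ∈ L`
`p`-regular and `0` otherwise (`L`-invariant, integral values). `cc ψ z` is integral (C3), and by HTN
`|D| * ψ 1 * cc ψ z = |L|`, so `cc ψ z` is rational, hence an integer, and `|D| n` divides `|L|` (`IsIntegral` rational is an integer: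
`IsIntegrallyClosed ℤ`). So `v_p(n) + a ≤ v_p|L|`. By `lo.dfl` there is `x'` with `DefL p M L ψ D x'`: `cc ψ (cls L x') =
|L : C_L(x')| ψ(x') / n` is not in `M` and `|C_L(x')|_p = |D|`. If `v_p(n) < v_p|L : C_L(x')| = v_p|L| - a` then `|L : C_L(x')| / n` is
`p` times an element of the local ring and `ψ x'` is integral, so `cc ψ (cls L x')` is `InM`, a contradiction. Hence
`v_p(n) = v_p|L| - a`. -/
def HTZ_stmt : Prop :=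
  ∀ (p : ℕ) (M : Ideal (integralClosure ℤ ℂ)), Setup p M → ∀ (G : Type) [Group G] [Finite G]
    (D : Subgroup G) (x : G) (θ χ : G → ℂ), Lo0 p M D x θ χ → ∀ P ≤ D, Good p M D (cz P) θ →
    ∀ ψ ∈ Bl M (cz P) θ, ∀ a : ℕ, Nat.card D = p ^ a → Defect p (cz P) ψ a

/-- **DOR** (medium; from DOA, DOB, DOC, EVD, EVC, FBC, FEQ, FSI). Orthogonality of the generalised decomposition numbers in the block
`Bl M L θ`, `L = cz P` (`P = ⊥` allowed). Proof: let `b_u = Bl M (Cz L u) θ`, `h_u = eS (Cz L u) b_u`, `ψ_u ∈ b_u` (not empty, `Good.card`);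
`ev χ' h_u u = dd χ' u * ψ_u 1` (EVD, `v = 1`), `ψ_u 1` is a positive integer. The sum over `Bl M L θ` may be extended to `IrrOn L`: for
`χ' ∈ IrrOn L` not in `Bl M L θ` `ev χ' h_u u = 0` by DOC (`E = Bl M L θ`, `F = BlC M L θ u`, `lo.eqr`, FBC). Case `a = u`: DOA,
`Sf b_u 1 1 = |D| (ψ_u 1)²` (`Good`), EVC (1). Case of no `t`: DOB; let `w ∈ L`, `w u w⁻¹ = a`, `ψ ∈ b_u`, `cjF w ψ ∈ b_a`. Let
`P' = P ⊔ zpowers a ≤ D`: `cz P' = Cz L a`. `D₁ = cjS w D ≥ P'` (`w ∈ cz P`, `w u w⁻¹ = a`), `θ₁ = cjF w θ`: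
`SB M (Cz L a) θ₁ (cjF w ψ)` (FEQ) and `SB M (Cz L a) θ (cjF w ψ)`; `lo.cnj` gives `l ∈ Cz L a` with `t = l w ∈ TT M D θ`; `t ∈ L` and
`t u t⁻¹ = l a l⁻¹ = a`, a contradiction. -/
def DOR_stmt : Prop :=
  ∀ (p : ℕ) (M : Ideal (integralClosure ℤ ℂ)), Setup p M → ∀ (G : Type) [Group G] [Finite G]
    (D : Subgroup G) (x : G) (θ χ : G → ℂ), Lo0 p M D x θ χ → ∀ P ≤ D, ∀ a ∈ D, ∀ u ∈ D,
    Good p M D (Cz (cz P) a) θ → Good p M D (Cz (cz P) u) θ →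
    (∀ χ' ∈ IrrOn (cz P), χ' ∉ Bl M (cz P) θ → dd M (Cz (cz P) u) θ χ' u = 0) ∧
    (a = u → ∑ᶠ χ' ∈ Bl M (cz P) θ, dd M (Cz (cz P) a) θ χ' a *
      (starRingEnd ℂ) (dd M (Cz (cz P) u) θ χ' u) = Nat.card D) ∧
    ((¬ ∃ t ∈ TT M D θ ⊓ cz P, t * u * t⁻¹ = a) →
      ∑ᶠ χ' ∈ Bl M (cz P) θ, dd M (Cz (cz P) a) θ χ' a *
        (starRingEnd ℂ) (dd M (Cz (cz P) u) θ χ' u) = 0)

/-- **DDT** (short-medium; from FEQ, FSI, FRA). Equivariance of `dd`. Proof: let `L = cz P` (`cjS t L = L`), `C = Cz L u`,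
`C' = Cz L (t u t⁻¹) = cjS t C`. `ψ' ↦ cjF t ψ'` is a bijection from `Bl M C θ` onto `Bl M C' (cjF t θ) = Bl M C' θ`
(`SB M (cz D) (cjF t θ) θ` and `cz D ≤ C'`, FSI (1)); `mt C' (cjF t ψ) (cjF t ψ') = mt C ψ ψ'`, `cjF t ψ' (t u t⁻¹) = ψ' u`,
`cjF t ψ' 1 = ψ' 1`. -/
def DDT_stmt : Prop :=
  ∀ (p : ℕ) (M : Ideal (integralClosure ℤ ℂ)), Setup p M → ∀ (G : Type) [Group G] [Finite G]
    (D : Subgroup G) (x : G) (θ χ : G → ℂ), Lo0 p M D x θ χ → ∀ P ≤ D, ∀ t ∈ TT M D θ, t ∈ nz P →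
    ∀ u ∈ D, ∀ ψ ∈ IrrOn (cz P),
    dd M (Cz (cz P) (t * u * t⁻¹)) θ (cjF t ψ) (t * u * t⁻¹) = dd M (Cz (cz P) u) θ ψ u

/-- **FIX** (medium; from DOR, BPL, DDT, FRA, FEQ). Fixed characters. Proof: BPL for `A = Bl M (cz P) θ`, `B = D`,
`X ψ u = dd M (Cz (cz P) u) θ ψ u`, `σ ψ = cjF t ψ` (FRA (3) for `t`, `t⁻¹`), `τ u = t u t⁻¹` (`t ∈ nz D`), `n = |D|`. `|A| = |D|` by
`Good.card` for `P`. `Cz (cz P) u = cz (P ⊔ zpowers u)` is Good (`Loc.good`). Orthogonality: DOR (2), and for `a ≠ u` DOR (3): an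
element `t' ∈ TT M D θ ⊓ cz P = cz D` (FRA (1)) centralises `u ∈ D`, so `t' u t'⁻¹ = u ≠ a`. DDT: `X (σ ψ) (τ u) = X ψ u`. The fixed
points of `τ`: `t u = u t` implies `u = 1` (`Free`, `t ∉ cz D`): exactly one. -/
def FIX_stmt : Prop :=
  ∀ (p : ℕ) (M : Ideal (integralClosure ℤ ℂ)), Setup p M → ∀ (G : Type) [Group G] [Finite G]
    (D : Subgroup G) (x : G) (θ χ : G → ℂ), Loc p M D x θ χ → ∀ P ≤ D, P ≠ ⊥ →
    ∀ t ∈ TT M D θ, t ∈ nz P → t ∉ cz D →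
    {ψ : G → ℂ | ψ ∈ Bl M (cz P) θ ∧ cjF t ψ = ψ}.ncard = 1

end Pool.Agent.FI2
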