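import Pool.Agent.helper59.FI2.SpecC2

set_option autoImplicit false

namespace Pool.Agent.FI2

open Pool.Agent.helper58.DC Pool.Agent.DI Pool.Agent.GR Pool.Agent.OB Pool.Agent.DR Pool.Agent.FI

lemma FIX_Cz {G : Type} [Group G] (P : Subgroup G) (u : G) : Cz (cz P) u = cz (P ⊔ Subgroup.zpowers u) := by
  ext g
  constructor
  · intro hg
    have h1 : g ∈ cz P := hg.1
    have h2 : g ∈ Subgroup.centralizer {u} := hg.2
    have h3 : P ⊔ Subgroup.zpowers u ≤ Subgroup.centralizer {g} := by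
      refine sup_le ?_ ?_
      · intro y hy
        rw [Subgroup.mem_centralizer_iff] at h1 ⊢
        intro z hz
        rw [Set.mem_singleton_iff] at hz
        subst hz
        exact (h1 y hy).symm
      · rw [Subgroup.zpowers_le]
        rw [Subgroup.mem_centralizer_iff] at h2 ⊢
        intro z hz
        rw [Set.mem_singleton_iff] at hz
        subst hz
        exact (h2 u rfl).symm
    change g ∈ Subgroup.centralizer _
    rw [Subgroup.mem_centralizer_iff]
    intro y hy
    have h4 := h3 hy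
    rw [Subgroup.mem_centralizer_iff] at h4
    exact (h4 g rfl).symm
  · intro hg
    have hg' : g ∈ Subgroup.centralizer ((P ⊔ Subgroup.zpowers u : Subgroup G) : Set G) := hg
    rw [Subgroup.mem_centralizer_iff] at hg'
    refine ⟨?_, ?_⟩
    · change g ∈ Subgroup.centralizer _
      rw [Subgroup.mem_centralizer_iff]
      intro y hy
      exact hg' y ((le_sup_left : P ≤ P ⊔ Subgroup.zpowers u) hy)
    · change g ∈ Subgroup.centralizer _
      rw [Subgroup.mem_centralizer_iff]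
      intro y hy
      rw [Set.mem_singleton_iff] at hy
      subst hy
      exact hg' y ((le_sup_right : Subgroup.zpowers y ≤ P ⊔ Subgroup.zpowers y) (Subgroup.mem_zpowers y))

theorem FIX (hDOR : DOR_stmt) (hBPL : BPL_stmt) (hDDT : DDT_stmt) (hFRA : FRA_stmt) (hFEQ : FEQ_stmt) : FIX_stmt := by
  classical
  intro p M hS G _ _ D x θ χ hL P hP hne t ht htn htc
  obtain ⟨⟨_, _, _, hF4⟩, _, hF3⟩ := hFRA p M hS G D x θ χ hL.lo P hP
  have hgP := hL.good P hP hne
  have hcard : (Bl M (cz P) θ).ncard = Nat.card D := hgP.card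
  have hfin : (Bl M (cz P) θ).Finite := by
    apply Set.finite_of_ncard_pos
    rw [hcard]
    exact Nat.card_pos
  have : Finite (Bl M (cz P) θ) := hfin
  letI : Fintype (Bl M (cz P) θ) := Fintype.ofFinite _
  letI : Fintype D := Fintype.ofFinite _
  have hgood : ∀ u ∈ D, Good p M D (Cz (cz P) u) θ := by
    intro u hu
    rw [FIX_Cz]
    refine hL.good _ ?_ ?_
    · exact sup_le hP (Subgroup.zpowers_le.2 hu)
    · intro h
      apply hne
      rw [eq_bot_iff, ← h]
      exact le_sup_left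
  have htD : t ∈ nz D := ht.1
  have hti : t⁻¹ ∈ TT M D θ := (TT M D θ).inv_mem ht
  have htni : t⁻¹ ∈ nz P := (nz P).inv_mem htn
  have hcomp : ∀ (g h : G) (ψ : G → ℂ), cjF g (cjF h ψ) = cjF (g * h) ψ :=
    fun g h ψ => (hFEQ G M g h P P P ψ ψ ψ).1.2.1
  have hone : ∀ (ψ : G → ℂ), cjF (1 : G) ψ = ψ := fun ψ => (hFEQ G M 1 1 P P P ψ ψ ψ).1.2.2.2
  let σ : Equiv.Perm (Bl M (cz P) θ) :=
    { toFun := fun ψ => ⟨cjF t ψ.1, hF3 t ht htn ψ.1 ψ.2⟩
      invFun := fun ψ => ⟨cjF t⁻¹ ψ.1, hF3 t⁻¹ hti htni ψ.1 ψ.2⟩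
      left_inv := by
        intro ψ
        apply Subtype.ext
        change cjF t⁻¹ (cjF t ψ.1) = ψ.1
        rw [hcomp, inv_mul_cancel, hone]
      right_inv := by
        intro ψ
        apply Subtype.ext
        change cjF t (cjF t⁻¹ ψ.1) = ψ.1
        rw [hcomp, mul_inv_cancel, hone] }
  have hmem : ∀ g ∈ nz D, ∀ u ∈ D, g * u * g⁻¹ ∈ D := fun g hg u hu => (Subgroup.mem_normalizer_iff.1 hg u).1 hu
  let τ : Equiv.Perm D :=
    { toFun := fun u => ⟨t * u.1 * t⁻¹, hmem t htD u.1 u.2⟩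
      invFun := fun u => ⟨t⁻¹ * u.1 * t⁻¹⁻¹, hmem t⁻¹ ((nz D).inv_mem htD) u.1 u.2⟩
      left_inv := by
        intro u
        apply Subtype.ext
        change t⁻¹ * (t * u.1 * t⁻¹) * t⁻¹⁻¹ = u.1
        group
      right_inv := by
        intro u
        apply Subtype.ext
        change t * (t⁻¹ * u.1 * t⁻¹⁻¹) * t⁻¹ = u.1
        group }
  have hnC : (Nat.card D : ℂ) ≠ 0 := by
    have : Nat.card D ≠ 0 := Nat.card_pos.ne'
    exact_mod_cast this
  have hcAB : Fintype.card (Bl M (cz P) θ) = Fintype.card D := by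
    rw [← Nat.card_eq_fintype_card, ← Nat.card_eq_fintype_card, ← hcard]
    rfl
  have key := hBPL (Bl M (cz P) θ) D (fun ψ u => dd M (Cz (cz P) u.1) θ ψ.1 u.1) σ τ (Nat.card D : ℂ) hnC hcAB
    (by
      intro b b'
      have hsum : ∑ a : Bl M (cz P) θ, dd M (Cz (cz P) b.1) θ a.1 b.1 * (starRingEnd ℂ) (dd M (Cz (cz P) b'.1) θ a.1 b'.1) =
          ∑ᶠ χ' ∈ Bl M (cz P) θ, dd M (Cz (cz P) b.1) θ χ' b.1 * (starRingEnd ℂ) (dd M (Cz (cz P) b'.1) θ χ' b'.1) := by
        rw [← finsum_set_coe_eq_finsum_mem (Bl M (cz P) θ), finsum_eq_sum_of_fintype]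
      have hD := hDOR p M hS G D x θ χ hL.lo P hP b.1 b.2 b'.1 b'.2 (hgood b.1 b.2) (hgood b'.1 b'.2)
      rw [hsum]
      by_cases hbb : b = b'
      · rw [if_pos hbb]
        exact hD.2.1 (congrArg Subtype.val hbb)
      · rw [if_neg hbb]
        refine hD.2.2 ?_
        rintro ⟨t', ht', he⟩
        rw [hF4 hne] at ht'
        apply hbb
        apply Subtype.ext
        have h1 : t' ∈ Subgroup.centralizer (D : Set G) := ht'
        rw [Subgroup.mem_centralizer_iff] at h1
        have h2 := h1 b'.1 b'.2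
        rw [← he, ← h2, mul_inv_cancel_right])
    (by
      intro a b
      exact hDDT p M hS G D x θ χ hL.lo P hP t ht htn b.1 b.2 a.1 a.2.1)
  have hright : (Finset.univ.filter fun b : D => τ b = b) = {1} := by
    ext b
    rw [Finset.mem_filter, Finset.mem_singleton]
    constructor
    · rintro ⟨_, hb⟩
      by_contra hb1
      apply htc
      refine hL.lo.free t ht b.1 b.2 (fun h => hb1 (Subtype.ext h)) ?_
      have h1 : t * b.1 * t⁻¹ = b.1 := congrArg Subtype.val hb
      rw [mul_inv_eq_iff_eq_mul] at h1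
      exact h1
    · rintro rfl
      refine ⟨Finset.mem_univ _, ?_⟩
      apply Subtype.ext
      change t * 1 * t⁻¹ = 1
      group
  rw [hright, Finset.card_singleton] at key
  have himg : {ψ : G → ℂ | ψ ∈ Bl M (cz P) θ ∧ cjF t ψ = ψ} =
      Subtype.val '' ((Finset.univ.filter fun a : Bl M (cz P) θ => σ a = a : Finset (Bl M (cz P) θ)) : Set (Bl M (cz P) θ)) := by
    ext ψ
    constructor
    · rintro ⟨h1, h2⟩
      refine ⟨⟨ψ, h1⟩, ?_, rfl⟩
      rw [Finset.mem_coe, Finset.mem_filter]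
      exact ⟨Finset.mem_univ _, Subtype.ext h2⟩
    · rintro ⟨a, ha, rfl⟩
      rw [Finset.mem_coe, Finset.mem_filter] at ha
      exact ⟨a.2, congrArg Subtype.val ha.2⟩
  rw [himg, Set.ncard_image_of_injective _ Subtype.val_injective, Set.ncard_coe_finset, key]

end Pool.Agent.FI2
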