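import Pool.Agent.helper59.FI2.SpecC2

/-! # Row fi:FNG (MP_baa4d7_al): counting -/

set_option autoImplicit false

namespace Pool.Agent.FI2

open Pool.Agent.helper58.DC Pool.Agent.DI Pool.Agent.GR Pool.Agent.OB Pool.Agent.DR Pool.Agent.FI

/-- The number of elements of `T g K`. -/
theorem FNG_count {G : Type} [Group G] [Finite G] (T K Z : Subgroup G) (g₀ : G) (W : Set G)
    (hW : ∀ g, g ∈ W ↔ ∃ t ∈ T, ∃ k ∈ K, g = t * g₀ * k)
    (hZ : ∀ c, c ∈ Z ↔ c ∈ T ∧ g₀⁻¹ * c * g₀ ∈ K) :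
    W.ncard * Nat.card Z = Nat.card T * Nat.card K := by
  classical
  let f : T × K → W := fun x => ⟨(x.1 : G) * g₀ * (x.2 : G), (hW _).2 ⟨x.1, x.1.2, x.2, x.2.2, rfl⟩⟩
  have hfib : ∀ y : W, Nonempty ({x : T × K // f x = y} ≃ Z) := by
    intro y
    obtain ⟨t, ht, k, hk, hy⟩ := (hW y.1).1 y.2
    refine ⟨{
      toFun := fun x => ⟨t⁻¹ * (x.1.1 : G), ?_⟩
      invFun := fun c => ⟨(⟨t * (c : G), ?_⟩, ⟨g₀⁻¹ * (c : G)⁻¹ * g₀ * k, ?_⟩), ?_⟩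
      left_inv := ?_
      right_inv := ?_ }⟩
    · rw [hZ]
      refine ⟨T.mul_mem (T.inv_mem ht) x.1.1.2, ?_⟩
      have h1 : (x.1.1 : G) * g₀ * (x.1.2 : G) = t * g₀ * k := by
        have h2 : ((f x.1 : W) : G) = y := congrArg Subtype.val x.2
        rw [← hy, ← h2]
      have h3 : g₀⁻¹ * (t⁻¹ * (x.1.1 : G)) * g₀ = k * (x.1.2 : G)⁻¹ := by
        have h4 : (x.1.1 : G) = t * g₀ * k * (x.1.2 : G)⁻¹ * g₀⁻¹ := by
          rw [← h1]
          group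
        rw [h4]
        group
      rw [h3]
      exact K.mul_mem hk (K.inv_mem x.1.2.2)
    · exact T.mul_mem ht ((hZ _).1 c.2).1
    · refine K.mul_mem ?_ hk
      have h1 := K.inv_mem ((hZ _).1 c.2).2
      have h2 : (g₀⁻¹ * (c : G) * g₀)⁻¹ = g₀⁻¹ * (c : G)⁻¹ * g₀ := by group
      rwa [h2] at h1
    · apply Subtype.ext
      show t * (c : G) * g₀ * (g₀⁻¹ * (c : G)⁻¹ * g₀ * k) = y
      rw [hy]
      group
    · rintro ⟨⟨a, b⟩, hx⟩
      apply Subtype.ext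
      have h1 : (a : G) * g₀ * (b : G) = t * g₀ * k := by
        have h2 : ((f (a, b) : W) : G) = y := congrArg Subtype.val hx
        rw [← hy, ← h2]
      refine Prod.ext (Subtype.ext ?_) (Subtype.ext ?_)
      · show t * (t⁻¹ * (a : G)) = a
        group
      · show g₀⁻¹ * (t⁻¹ * (a : G))⁻¹ * g₀ * k = b
        have h3 : (b : G) = g₀⁻¹ * (a : G)⁻¹ * (t * g₀ * k) := by
          rw [← h1]
          group
        rw [h3]
        group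
    · intro c
      apply Subtype.ext
      show t⁻¹ * (t * (c : G)) = c
      group
  have e1 : (Σ y : W, {x : T × K // f x = y}) ≃ W × Z :=
    (Equiv.sigmaCongrRight fun y => (hfib y).some).trans (Equiv.sigmaEquivProd W Z)
  have e2 := (Equiv.sigmaFiberEquiv f).symm.trans e1
  have h1 := Nat.card_congr e2
  rw [Nat.card_prod, Nat.card_prod, Nat.card_coe_set_eq] at h1
  exact h1.symm

theorem FNG (hFRA : FRA_stmt) (hFEQ : FEQ_stmt) (hFSI : FSI_stmt) (hIF : IF_stmt) : FNG_stmt := by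
  classical
  intro p M hS G _ _ D x θ χ hL P hP hPb η hη
  have mul1 : ∀ (g h : G) (P : Subgroup G), cjS g (cjS h P) = cjS (g * h) P := fun g h P =>
    ((hFEQ G M g h P ⊥ ⊥ 0 0 0).1).1
  have mulF : ∀ (g h : G) (ψ : G → ℂ), cjF g (cjF h ψ) = cjF (g * h) ψ := fun g h ψ =>
    ((hFEQ G M g h ⊥ ⊥ ⊥ 0 ψ 0).1).2.1
  have czc : ∀ (g : G) (P : Subgroup G), cz (cjS g P) = cjS g (cz P) := fun g P =>
    (hFEQ G M g 1 P ⊥ ⊥ 0 0 0).2.1.1
  have lec : ∀ (g : G) (P Q : Subgroup G), cjS g P ≤ cjS g Q ↔ P ≤ Q := fun g P Q =>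
    (hFEQ G M g 1 P Q ⊥ 0 0 0).2.1.2.2.1
  have nzc : ∀ (g : G) (P : Subgroup G), cjS g P = P ↔ g ∈ nz P := fun g P =>
    (hFEQ G M g 1 P ⊥ ⊥ 0 0 0).2.1.2.2.2.1
  have botc : ∀ (g : G) (P : Subgroup G), cjS g P = ⊥ ↔ P = ⊥ := fun g P =>
    (hFEQ G M g 1 P ⊥ ⊥ 0 0 0).2.1.2.2.2.2.1
  have cardc : ∀ (g : G) (P : Subgroup G), Nat.card (cjS g P) = Nat.card P := fun g P =>
    (hFEQ G M g 1 P ⊥ ⊥ 0 0 0).2.1.2.2.2.2.2
  have irr : ∀ (g : G) (L : Subgroup G) (ψ : G → ℂ), ψ ∈ IrrOn L ↔ cjF g ψ ∈ IrrOn (cjS g L) :=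
    fun g L ψ => (hFEQ G M g 1 ⊥ ⊥ L 0 ψ 0).2.2.2.1
  have sbc : ∀ (g : G) (L : Subgroup G) (η ψ : G → ℂ),
      SB M L η ψ ↔ SB M (cjS g L) (cjF g η) (cjF g ψ) :=
    fun g L η ψ => (hFEQ G M g 1 ⊥ ⊥ L η ψ 0).2.2.2.2.1
  -- the first element
  obtain ⟨g₀, hg₀, hs₀⟩ := hL.con P hP η hη.1 hη.2
  obtain ⟨P₀, hP₀⟩ : ∃ P₀ : Subgroup G, P₀ = cjS g₀ P := ⟨_, rfl⟩
  rw [← hP₀] at hg₀ hs₀
  have hP₀b : P₀ ≠ ⊥ := by
    rw [hP₀]
    intro h
    exact hPb ((botc g₀ P).1 h)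
  obtain ⟨⟨hF1, hF2, hF3, hF4⟩, -, -⟩ := hFRA p M hS G D x θ χ hL P₀ hg₀
  have hK₀ : ∀ l, l ∈ cz P₀ ↔ g₀⁻¹ * l * g₀ ∈ cz P := by
    intro l
    rw [hP₀, czc]
    exact mem_cjS
  have hDp : IsPGroup p D := hL.rt.dfa.pgrp
  have hθ : θ ∈ IrrOn (cz D) := hL.rt.th
  refine FNG_count (TT M D θ) (cz P) (cz D) g₀ _ ?_ ?_
  · intro g
    constructor
    · rintro ⟨h1, h2⟩
      have e1 : cjS (g₀ * g⁻¹) (cjS g P) = P₀ := by
        rw [mul1, hP₀]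
        congr 1
        group
      have e2 : cjF (g₀ * g⁻¹) (cjF g η) = cjF g₀ η := by
        rw [mulF]
        congr 1
        group
      have h3 : P₀ ≤ cjS (g₀ * g⁻¹) D := by
        rw [← e1]
        exact (lec _ _ _).2 h1
      have h4 : SB M (cz P₀) (cjF (g₀ * g⁻¹) θ) (cjF g₀ η) := by
        have h5 := (sbc (g₀ * g⁻¹) _ _ _).1 h2
        rw [← czc, e1, e2] at h5
        exact h5
      have h6 : cjF g₀ η ∈ IrrOn (cz P₀) := by
        rw [hP₀, czc]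
        exact (irr g₀ (cz P) η).1 hη.1
      have h7 : cjF (g₀ * g⁻¹) θ ∈ IrrOn (cz (cjS (g₀ * g⁻¹) D)) := by
        rw [czc]
        exact (irr _ _ _).1 hθ
      obtain ⟨l, hl, h8, h9⟩ := hL.cnj P₀ hg₀ (cjF g₀ η) h6 hs₀ (cjS (g₀ * g⁻¹) D)
        (hDp.map _) h3 (cardc _ _) (cjF (g₀ * g⁻¹) θ) h7 h4
      rw [mul1] at h8
      rw [mulF] at h9
      have h10 : l * (g₀ * g⁻¹) ∈ TT M D θ := ⟨(nzc _ _).1 h8, h9⟩
      refine ⟨_, (TT M D θ).inv_mem h10, _, (hK₀ l).1 hl, ?_⟩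
      group
    · rintro ⟨t, ht, k, hk, rfl⟩
      have hkn : cjS k P = P := (nzc k P).2 (Subgroup.centralizer_le_normalizer (P : Set G) hk)
      have hkη : cjF k η = η := by
        funext y
        rw [cjF_apply]
        have h1 := ((hIF G (cz P)).2 η hη.1).2.1 k⁻¹ ((cz P).inv_mem hk) y
        rw [inv_inv] at h1
        exact h1
      have e1 : cjS (t * g₀ * k) P = cjS t P₀ := by
        rw [← mul1, hkn, ← mul1, hP₀]
      have e2 : cjF (t * g₀ * k) η = cjF t (cjF g₀ η) := by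
        rw [← mulF, hkη, ← mulF]
      have htD : cjS t D = D := (nzc t D).2 ht.1
      have hle : cjS t P₀ ≤ D := by
        calc cjS t P₀ ≤ cjS t D := (lec t P₀ D).2 hg₀
          _ = D := htD
      show cjS (t * g₀ * k) P ≤ D ∧
        SB M (cz (cjS (t * g₀ * k) P)) θ (cjF (t * g₀ * k) η)
      rw [e1, e2]
      refine ⟨hle, ?_⟩
      have h1 : SB M (cz (cjS t P₀)) (cjF t θ) (cjF t (cjF g₀ η)) := by
        rw [czc]
        exact (sbc t _ _ _).1 hs₀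
      have h2 : SB M (cz (cjS t P₀)) (cjF t θ) θ := by
        refine (hFSI p M hS G (cz D) (cz (cjS t P₀)) (cjF t θ) θ).1 ?_ ?_ hθ.1 ht.2
        · exact Subgroup.centralizer_le (SetLike.coe_subset_coe.2 hle)
        · have h3 : cjF t θ ∈ IrrOn (cz D) := by
            have h4 := (irr t (cz D) θ).1 hθ
            rw [← czc, htD] at h4
            exact h4
          exact h3.1
      exact h2.symm.trans h1
  · intro c
    rw [← hK₀, ← Subgroup.mem_inf, hF4 hP₀b]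

end Pool.Agent.FI2
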