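import Pool.Agent.helper59.FI2.SpecC2
import Pool.Agent.helper59.FI.Base

/-!
# Row HTZ: heights are zero
-/

set_option autoImplicit false

namespace Pool.Agent.FI2

open Pool.Agent.helper58.DC Pool.Agent.DI Pool.Agent.GR Pool.Agent.OB Pool.Agent.DR Pool.Agent.FI

theorem HTZ_preg {G : Type} [Group G] (p : ℕ) (l x : G) : PReg p (l * x * l⁻¹) ↔ PReg p x := by
  unfold PReg
  have h : orderOf (l * x * l⁻¹) = orderOf x := by
    have h1 := MulEquiv.orderOf_eq (MulAut.conj l) x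
    rwa [MulAut.conj_apply] at h1
  rw [h]

theorem HTZ_memL {G : Type} [Group G] {L : Subgroup G} {l : G} (hl : l ∈ L) (x : G) : l * x * l⁻¹ ∈ L ↔ x ∈ L := by
  constructor
  · intro h
    have h1 : l⁻¹ * (l * x * l⁻¹) * l ∈ L := L.mul_mem (L.mul_mem (L.inv_mem hl) h) hl
    have h2 : l⁻¹ * (l * x * l⁻¹) * l = x := by group
    rwa [h2] at h1
  · intro h
    exact L.mul_mem (L.mul_mem hl h) (L.inv_mem hl)

theorem HTZ_rat {q : ℚ} (h : IsIntegral ℤ ((q : ℚ) : ℂ)) : ∃ k : ℤ, (k : ℚ) = q := by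
  have h1 : IsIntegral ℤ q := by
    have h2 : IsIntegral ℤ (algebraMap ℚ ℂ q) := h
    exact (isIntegral_algebraMap_iff (algebraMap ℚ ℂ).injective).1 h2
  obtain ⟨k, hk⟩ := IsIntegrallyClosed.isIntegral_iff.1 h1
  exact ⟨k, hk⟩

theorem HTZ (hHTN : HTN_stmt) (hC3 : C3_stmt) : HTZ_stmt := by
  classical
  intro p M hS G _ _ D x θ χ lo P hP hg ψ hψ a ha
  obtain ⟨hψI, hψS⟩ := hψ
  obtain ⟨n, hn0, hn1, hn2⟩ := IrrOn_pos hψI
  have hp := hS.pr
  haveI := Fact.mk hp
  have hN := hHTN p M hS G D (cz P) θ hg ψ ⟨hψI, hψS⟩ ψ ⟨hψI, hψS⟩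
  set L : Subgroup G := cz P with hL
  have hnC : (n : ℂ) ≠ 0 := by exact_mod_cast hn0.ne'
  have hLpos : 0 < Nat.card L := Nat.card_pos
  have hLC : (Nat.card L : ℂ) ≠ 0 := by exact_mod_cast hLpos.ne'
  have hDC : (Nat.card D : ℂ) ≠ 0 := by
    have : 0 < Nat.card D := Nat.card_pos
    exact_mod_cast this.ne'
  -- the first part: the divisibility
  set z : G → ℂ := fun v => if v ∈ L ∧ PReg p v then ψ v⁻¹ else 0 with hz
  have hzi : ∀ l ∈ L, ∀ y, z (l * y * l⁻¹) = z y := by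
    intro l hl y
    have h1 : (l * y * l⁻¹)⁻¹ = l * y⁻¹ * l⁻¹ := by group
    simp only [hz]
    rw [HTZ_preg, HTZ_memL hl, h1, IrrOn_conj hψI hl]
  have hzI : ∀ y, IsIntegral ℤ (z y) := by
    intro y
    simp only [hz]
    split_ifs
    · exact IrrOn_int hψI _
    · exact isIntegral_zero
  have hcI : IsIntegral ℤ (cc ψ z) := (hC3 G).1 L ψ hψI z hzi hzI
  have hcc : cc ψ z * n = ∑ᶠ v ∈ {v : G | v ∈ L ∧ PReg p v}, ψ v * ψ v⁻¹ := by
    unfold cc
    rw [hn1, div_mul_cancel₀ _ hnC]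
    refine finsum_congr fun v => ?_
    rw [finsum_eq_if]
    simp only [hz, Set.mem_setOf_eq]
    split_ifs
    · ring
    · ring
  have hmain : (Nat.card D : ℂ) * (cc ψ z * n) = Nat.card L := by
    rw [hcc]
    exact hN
  obtain ⟨k, hk⟩ : ∃ k : ℤ, (k : ℚ) = (Nat.card L : ℚ) / ((Nat.card D : ℚ) * n) := by
    apply HTZ_rat
    have h1 : (((Nat.card L : ℚ) / ((Nat.card D : ℚ) * n) : ℚ) : ℂ) = cc ψ z := by
      push_cast
      rw [div_eq_iff (mul_ne_zero hDC hnC), ← hmain]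
      ring
    rw [h1]
    exact hcI
  have hdvd : p ^ a * n ∣ Nat.card L := by
    have hDQ : (Nat.card D : ℚ) ≠ 0 := by exact_mod_cast hDC
    have hnQ : (n : ℚ) ≠ 0 := by exact_mod_cast hnC
    rw [eq_div_iff (mul_ne_zero hDQ hnQ)] at hk
    have h1 : (k : ℤ) * ((Nat.card D : ℤ) * n) = (Nat.card L : ℤ) := by exact_mod_cast hk
    have h2 : ((Nat.card D * n : ℕ) : ℤ) ∣ (Nat.card L : ℤ) := ⟨k, by push_cast; rw [← h1]; ring⟩
    rw [← ha]
    exact_mod_cast h2
  obtain ⟨m0, hm0⟩ := hdvd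
  have hm0' : m0 ≠ 0 := by
    rintro rfl
    rw [mul_zero] at hm0
    omega
  have hval : a + padicValNat p n + padicValNat p m0 = padicValNat p (Nat.card L) := by
    rw [hm0, padicValNat.mul (mul_ne_zero (pow_ne_zero _ hp.ne_zero) hn0.ne') hm0',
      padicValNat.mul (pow_ne_zero _ hp.ne_zero) hn0.ne', padicValNat.prime_pow]
  -- the second part
  obtain ⟨x', hx', hd⟩ := lo.dfl P hP ψ hψI hψS.symm
  have hcard := hd.card
  rw [ha] at hcard
  unfold pp at hcard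
  have hCz : padicValNat p (Nat.card (Cz L x')) = a := (Nat.pow_right_injective hp.two_le hcard).symm
  have hCpos : 0 < Nat.card (Cz L x') := Nat.card_pos
  have hm1 : padicValNat p m0 = 0 := by
    by_contra hne
    apply hd.ne
    obtain ⟨m1, hm1⟩ : p ∣ m0 := dvd_of_one_le_padicValNat (Nat.one_le_iff_ne_zero.2 hne)
    obtain ⟨c, hc⟩ : p ^ a ∣ Nat.card (Cz L x') := by
      rw [← hCz]
      exact pow_padicValNat_dvd
    have hcp : ¬ p ∣ c := by
      rintro ⟨c', hc'⟩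
      have hc0 : c' ≠ 0 := by
        rintro rfl
        rw [hc', mul_zero, mul_zero] at hc
        omega
      have h1 : padicValNat p (Nat.card (Cz L x')) = a + (1 + padicValNat p c') := by
        rw [hc, hc', padicValNat.mul (pow_ne_zero _ hp.ne_zero) (mul_ne_zero hp.ne_zero hc0),
          padicValNat.prime_pow, padicValNat.mul hp.ne_zero hc0, padicValNat.self hp.one_lt]
      omega
    have hccI : IsIntegral ℤ (cc ψ (cls L x')) := cc_cls_int le_rfl hψI x'
    have h2 := cc_cls hψI x'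
    rw [hn1, hm0, hc, hm1] at h2
    push_cast at h2
    have hpC : (p : ℂ) ^ a ≠ 0 := pow_ne_zero _ hS.p_ne
    have h3 : (c : ℂ) * cc ψ (cls L x') = (p : ℂ) * (m1 * ψ x') := by
      have h4 : (p : ℂ) ^ a * ((c : ℂ) * cc ψ (cls L x')) = (p : ℂ) ^ a * ((p : ℂ) * (m1 * ψ x')) := by
        rw [← mul_assoc, h2]
        field_simp
      exact mul_left_cancel₀ hpC h4
    have h5 : InM M ((c : ℂ) * cc ψ (cls L x')) := by
      rw [h3]
      exact InM.mul_right hS (InM.prime_mem hS)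
        ((IntAt.natCast hS m1).mul hS (IntAt.of_isIntegral hS (IrrOn_int hψI x')))
    rcases InM.or hS (IntAt.natCast hS c) (IntAt.of_isIntegral hS hccI) h5 with h6 | h6
    · exact absurd ((InM.natCast hS c).1 h6) hcp
    · exact h6
  refine ⟨n, hn1, ?_⟩
  omega

end Pool.Agent.FI2
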