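import Pool.Agent.helper58.FI.AllC
import Pool.Agent.helper59.FI2.FRA
import Pool.Agent.helper59.FI2.FNG
import Pool.Agent.helper59.FI2.HTZ
import Pool.Agent.helper59.FI2.DOR
import Pool.Agent.helper59.FI2.DDT
import Pool.Agent.helper59.FI2.FIX

/-!
# Project fi2: assembly of the rows of block F for `Pool.Agent.FI2.Lo0`
-/

set_option autoImplicit false

namespace Pool.Agent.FI2.AllC2

open Pool.Agent Pool.Agent.helper58.DC Pool.Agent.DI Pool.Agent.GR Pool.Agent.OB Pool.Agent.DR Pool.Agent.FI2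

theorem dFRA : FRA_stmt := FRA FI.AllC.cFEQ FI.AllC.cFSI GR.All.dIF
theorem dFNG : FNG_stmt := FNG dFRA FI.AllC.cFEQ FI.AllC.cFSI GR.All.dIF
theorem dHTZ : HTZ_stmt := HTZ FI.AllC.cHTN DR.AllDI.iC3
theorem dDOR : DOR_stmt :=
  DOR FI.AllC.cDOA FI.AllC.cDOB FI.AllC.cDOC FI.AllC.cEVD FI.AllC.cEVC FI.AllC.cFBC FI.AllC.cFEQ GR.All.dIF
theorem dDDT : DDT_stmt := DDT FI.AllC.cFEQ FI.AllC.cFSI dFRA
theorem dFIX : FIX_stmt := FIX dDOR FI.AllC.cBPL dDDT dFRA FI.AllC.cFEQ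

end Pool.Agent.FI2.AllC2
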